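import Pool.Agent.X117.QSC

/-!
# MP_4faf9f_co, Q1

For every set `ℬ` of permutations whose `𝒬(ℬ)` is symmetric (in particular for every fine set) and
every inverse descent class `D`, one has `𝒬(ℬ D) = 𝒬(D ℬ)`.
-/

namespace Pool.Agent.Results.MP_4faf9f_co.SymmetricCommute

open Equiv Pool.Agent.X117.QS

/-- The inverse descent class `D_{n,J}^{-1}`. -/
def invDes (n : ℕ) (J : Finset ℕ) : Finset (Perm (Fin n)) :=
  Finset.univ.filter fun π => Des π⁻¹ = J

open Classical in
/-- **`𝒬(ℬ D_{n,J}^{-1}) = 𝒬(D_{n,J}^{-1} ℬ)` for all `ℬ` with symmetric `𝒬(ℬ)`.** -/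
theorem result (n : ℕ) (B : Finset (Perm (Fin n))) (hB : IsSymm (Q B.val)) (J : Finset ℕ) :
    Q (mulM B (invDes n J)) = Q (mulM (invDes n J) B) := by
  apply Q_eq
  intro f hf
  rw [countP_mulM, countP_mulM]
  revert J
  apply eq_of_sum_powerset
  intro J
  -- the sums over the subsets of `J`
  have h1 : ∑ K ∈ J.powerset, ((B ×ˢ invDes n K).filter fun p => Resp f (p.1 * p.2)).card =
      ∑ b ∈ B, cnt b f (blk J) := by
    have e1 : ∀ K, ((B ×ˢ invDes n K).filter fun p => Resp f (p.1 * p.2)).card =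
        ∑ b ∈ B, (Finset.univ.filter fun σ : Perm (Fin n) =>
          Des σ⁻¹ = K ∧ Resp f (b * σ)).card := by
      intro K
      rw [Finset.card_filter, Finset.sum_product]
      refine Finset.sum_congr rfl fun b _ => ?_
      rw [← Finset.card_filter, invDes, Finset.filter_filter]
    simp_rw [e1]
    rw [Finset.sum_comm]
    refine Finset.sum_congr rfl fun b _ => ?_
    rw [cnt, Finset.card_eq_sum_card_fiberwise (f := fun σ => Des σ⁻¹) (t := J.powerset)]
    · refine Finset.sum_congr rfl fun K hK => ?_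
      rw [Finset.mem_powerset] at hK
      congr 1
      ext σ
      simp only [Finset.mem_filter, Finset.mem_univ, true_and]
      rw [resp_blk]
      constructor
      · rintro ⟨h1, h2⟩
        exact ⟨⟨h2, h1 ▸ hK⟩, h1⟩
      · rintro ⟨⟨h1, -⟩, h2⟩
        exact ⟨h2, h1⟩
    · intro σ hσ
      simp only [Finset.coe_filter, Finset.mem_univ, true_and, Set.mem_ofPred_eq] at hσ
      rw [Finset.mem_coe, Finset.mem_powerset]
      exact (resp_blk J _).mp hσ.2
  have h2 : ∑ K ∈ J.powerset, ((invDes n K ×ˢ B).filter fun p => Resp f (p.1 * p.2)).card =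
      ∑ b ∈ B, cnt b (blk J) f := by
    have e1 : ∀ K, ((invDes n K ×ˢ B).filter fun p => Resp f (p.1 * p.2)).card =
        ∑ b ∈ B, (Finset.univ.filter fun σ : Perm (Fin n) =>
          Des σ⁻¹ = K ∧ Resp f (σ * b)).card := by
      intro K
      rw [Finset.card_filter, Finset.sum_product_right]
      refine Finset.sum_congr rfl fun b _ => ?_
      rw [← Finset.card_filter, invDes, Finset.filter_filter]
    simp_rw [e1]
    rw [Finset.sum_comm]
    refine Finset.sum_congr rfl fun b _ => ?_
    have e2 : cnt b (blk J) f = (Finset.univ.filter fun σ : Perm (Fin n) =>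
        Resp (blk J) σ⁻¹ ∧ Resp f (σ * b)).card := by
      apply Finset.card_bij (fun (ρ : Perm (Fin n)) _ => (b * ρ)⁻¹)
      · intro ρ hρ
        simp only [Finset.mem_filter, Finset.mem_univ, true_and] at hρ ⊢
        rw [inv_inv]
        refine ⟨hρ.1, ?_⟩
        have : (b * ρ)⁻¹ * b = ρ⁻¹ := by group
        rw [this]
        exact hρ.2
      · intro ρ _ ρ' _ h
        exact mul_left_cancel (inv_injective h)
      · intro σ hσ
        simp only [Finset.mem_filter, Finset.mem_univ, true_and] at hσ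
        refine ⟨b⁻¹ * σ⁻¹, ?_, by group⟩
        simp only [Finset.mem_filter, Finset.mem_univ, true_and]
        refine ⟨by rw [mul_inv_cancel_left]; exact hσ.1, ?_⟩
        have : (b⁻¹ * σ⁻¹)⁻¹ = σ * b := by group
        rw [this]
        exact hσ.2
    rw [e2, Finset.card_eq_sum_card_fiberwise (f := fun σ => Des σ⁻¹) (t := J.powerset)]
    · refine Finset.sum_congr rfl fun K hK => ?_
      rw [Finset.mem_powerset] at hK
      congr 1
      ext σ
      simp only [Finset.mem_filter, Finset.mem_univ, true_and]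
      rw [resp_blk]
      constructor
      · rintro ⟨h1, h2⟩
        exact ⟨⟨h1 ▸ hK, h2⟩, h1⟩
      · rintro ⟨⟨-, h1⟩, h2⟩
        exact ⟨h2, h1⟩
    · intro σ hσ
      simp only [Finset.coe_filter, Finset.mem_univ, true_and, Set.mem_ofPred_eq] at hσ
      rw [Finset.mem_coe, Finset.mem_powerset]
      exact (resp_blk J _).mp hσ.1
  rw [h1, h2]
  exact sum_cnt_symm hf (blk_mono J) hB

end Pool.Agent.Results.MP_4faf9f_co.SymmetricCommute
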